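import Mathlib
import Pool.Agent.E8helper1.CT.Neat

/-!
# Neat subgroups and forms
-/

set_option autoImplicit false
set_option linter.unusedSectionVars false

namespace Pool.Agent.E8helper53.QF

open Module Pool.Agent.E8helper1.CT

noncomputable section

variable {ℓ : ℕ} [hℓ : Fact ℓ.Prime]

section vectors

variable {ν : Type} [Fintype ν] [DecidableEq ν]

/-- The entries are bounded. -/
def BdM (A : Matrix ν ν ℚ_[ℓ]) (c : ℝ) : Prop := ∀ i j, ‖A i j‖ ≤ c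

/-- The entries are bounded. -/
def BdV (w : ν → ℚ_[ℓ]) (c : ℝ) : Prop := ∀ i, ‖w i‖ ≤ c

theorem BdM.mulVec {A : Matrix ν ν ℚ_[ℓ]} {w : ν → ℚ_[ℓ]} {a c : ℝ} (hA : BdM A a) (hw : BdV w c)
    (ha : 0 ≤ a) (hc : 0 ≤ c) : BdV (A.mulVec w) (a * c) := by
  intro i
  change ‖∑ j, A i j * w j‖ ≤ a * c
  refine IsUltrametricDist.norm_sum_le_of_forall_le_of_nonneg (mul_nonneg ha hc) fun k _ => ?_
  rw [norm_mul]
  exact mul_le_mul (hA i k) (hw k) (norm_nonneg _) ha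

theorem BdV.add {v w : ν → ℚ_[ℓ]} {a : ℝ} (hv : BdV v a) (hw : BdV w a) : BdV (v + w) a :=
  fun i => (IsUltrametricDist.norm_add_le_max _ _).trans (max_le (hv i) (hw i))

theorem BdM.one : BdM (1 : Matrix ν ν ℚ_[ℓ]) 1 := by
  intro i j
  by_cases h : i = j
  · rw [h, Matrix.one_apply_eq, norm_one]
  · rw [Matrix.one_apply_ne h, norm_zero]
    exact zero_le_one

theorem BdM.add {A B : Matrix ν ν ℚ_[ℓ]} {a : ℝ} (hA : BdM A a) (hB : BdM B a) :
    BdM (A + B) a :=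
  fun i j => (IsUltrametricDist.norm_add_le_max _ _).trans (max_le (hA i j) (hB i j))

theorem BdM.mul {A B : Matrix ν ν ℚ_[ℓ]} {a c : ℝ} (hA : BdM A a) (hB : BdM B c)
    (ha : 0 ≤ a) (hc : 0 ≤ c) : BdM (A * B) (a * c) := by
  intro i j
  rw [Matrix.mul_apply]
  refine IsUltrametricDist.norm_sum_le_of_forall_le_of_nonneg (mul_nonneg ha hc) fun k _ => ?_
  rw [norm_mul]
  exact mul_le_mul (hA i k) (hB k j) (norm_nonneg _) ha

theorem bdM_of_sub {A : Matrix ν ν ℚ_[ℓ]} (hA : BdM (A - 1) (rad ℓ)) : BdM A 1 := by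
  have h0 : BdM (A - 1) 1 := fun i j => (hA i j).trans rad_le_one
  have h1 := h0.add BdM.one
  rwa [sub_add_cancel] at h1

theorem bdM_pow {A : Matrix ν ν ℚ_[ℓ]} (hA : BdM (A - 1) (rad ℓ)) (n : ℕ) :
    BdM (A ^ n - 1) (rad ℓ) := by
  induction n with
  | zero =>
    rw [pow_zero, sub_self]
    intro i j
    rw [Matrix.zero_apply, norm_zero]
    exact rad_nonneg
  | succ n ih =>
    have h1 : A ^ (n + 1) - 1 = A ^ n * (A - 1) + (A ^ n - 1) := by
      rw [pow_succ, mul_sub, mul_one, sub_add_sub_cancel]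
    rw [h1]
    refine BdM.add ?_ ih
    have h2 := (bdM_of_sub ih).mul hA zero_le_one rad_nonneg
    rwa [one_mul] at h2

/-- The displacement by a power. -/
theorem bd_disp {A : Matrix ν ν ℚ_[ℓ]} (hA : BdM (A - 1) (rad ℓ)) {w : ν → ℚ_[ℓ]} {W : ℝ}
    (hW0 : 0 ≤ W) (hW : BdV (A.mulVec w - w) W) (n : ℕ) :
    BdV ((A ^ n).mulVec w - w - (n : ℚ_[ℓ]) • (A.mulVec w - w)) (rad ℓ * W) := by
  have h0 : 0 ≤ rad ℓ * W := mul_nonneg rad_nonneg hW0
  induction n with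
  | zero =>
    rw [pow_zero, Matrix.one_mulVec, sub_self, Nat.cast_zero, zero_smul, sub_self]
    intro i
    rw [Pi.zero_apply, norm_zero]
    exact h0
  | succ n ih =>
    obtain ⟨u, hu⟩ : ∃ u, u = A.mulVec w - w := ⟨_, rfl⟩
    rw [← hu] at hW ih ⊢
    have h1 : (A ^ (n + 1)).mulVec w - w - ((n + 1 : ℕ) : ℚ_[ℓ]) • u =
        ((A ^ n).mulVec w - w - (n : ℚ_[ℓ]) • u) + (A ^ n - 1).mulVec u := by
      have h2 : (A ^ (n + 1)).mulVec w = (A ^ n).mulVec w + (A ^ n).mulVec u := by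
        rw [pow_succ, ← Matrix.mulVec_mulVec, ← Matrix.mulVec_add, hu, add_sub_cancel]
      rw [h2, Matrix.sub_mulVec, Matrix.one_mulVec, Nat.cast_add, Nat.cast_one, add_smul, one_smul]
      abel
    rw [h1]
    exact ih.add ((bdM_pow hA n).mulVec hW rad_nonneg hW0)

/-- A vector fixed by a prime power is fixed. -/
theorem fix_prime {A : Matrix ν ν ℚ_[ℓ]} (hA : BdM (A - 1) (rad ℓ)) {w : ν → ℚ_[ℓ]} {q : ℕ}
    (hq : q.Prime) (h : (A ^ q).mulVec w = w) : A.mulVec w = w := by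
  rw [← sub_eq_zero]
  rcases isEmpty_or_nonempty ν with hd | hd
  · funext i
    exact (hd.false i).elim
  obtain ⟨i0, hmax⟩ := Finite.exists_max (fun i : ν => ‖(A.mulVec w - w) i‖)
  have h1 := bd_disp hA (norm_nonneg _) (w := w) hmax q
  rw [h, sub_self, zero_sub] at h1
  have h2 := h1 i0
  rw [Pi.neg_apply, norm_neg, Pi.smul_apply, smul_eq_mul, norm_mul] at h2
  have hl : (1 : ℝ) < ℓ := by exact_mod_cast hℓ.1.one_lt
  have hq1 : (ℓ : ℝ)⁻¹ ≤ ‖(q : ℚ_[ℓ])‖ := by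
    by_cases hql : q = ℓ
    · rw [hql, Padic.norm_p]
    · rw [Padic.norm_natCast_eq_one_iff.2
        ((Nat.coprime_primes hℓ.1 hq).2 (Ne.symm hql))]
      exact inv_le_one_of_one_le₀ hl.le
  have h3 : (A.mulVec w - w) i0 = 0 := by
    by_contra hne
    have h4 : 0 < ‖(A.mulVec w - w) i0‖ := norm_pos_iff.2 hne
    have h5 : ‖(q : ℚ_[ℓ])‖ ≤ rad ℓ := le_of_mul_le_mul_right h2 h4
    have h6 : (ℓ : ℝ)⁻¹ ≤ ((ℓ : ℝ) ^ 2)⁻¹ := hq1.trans h5
    have h7 : ((ℓ : ℝ) ^ 2)⁻¹ < (ℓ : ℝ)⁻¹ := by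
      rw [inv_lt_inv₀ (by positivity) (by positivity)]
      nlinarith
    exact absurd h6 (not_le.2 h7)
  funext i
  have h4 := hmax i
  rw [h3, norm_zero] at h4
  exact norm_le_zero_iff.1 h4

theorem fix_pow {w : ν → ℚ_[ℓ]} (j : ℕ) :
    ∀ A : Matrix ν ν ℚ_[ℓ], BdM (A - 1) (rad ℓ) → 0 < j → (A ^ j).mulVec w = w →
      A.mulVec w = w := by
  induction j using Nat.strong_induction_on with
  | _ j ih =>
    intro A hA hj h
    by_cases h1 : j = 1
    · rwa [h1, pow_one] at h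
    obtain ⟨i, hi⟩ := Nat.minFac_dvd j
    have hp := Nat.minFac_prime h1
    have hi0 : 0 < i := by
      rcases Nat.eq_zero_or_pos i with h0 | h0
      · rw [h0, mul_zero] at hi
        omega
      · exact h0
    have hij : i < j := by
      have h2 := hp.two_le
      nlinarith
    refine ih i hij A hA hi0 ?_
    refine fix_prime (bdM_pow hA i) hp ?_
    rw [← pow_mul, mul_comm i, ← hi]
    exact h

end vectors

/-- Products of elements near to bounded ones. -/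
theorem prod_near {κ : Type} (s : Finset κ) (a b : κ → ℚ_[ℓ]) (ha : ∀ l, ‖a l‖ ≤ 1)
    (hb : ∀ l, ‖b l‖ ≤ 1) (h : ∀ l, ‖a l - b l‖ ≤ rad ℓ) :
    ‖∏ l ∈ s, a l - ∏ l ∈ s, b l‖ ≤ rad ℓ ∧ ‖∏ l ∈ s, a l‖ ≤ 1 ∧ ‖∏ l ∈ s, b l‖ ≤ 1 := by
  classical
  induction s using Finset.induction_on with
  | empty =>
    refine ⟨?_, ?_, ?_⟩
    · rw [Finset.prod_empty, Finset.prod_empty, sub_self, norm_zero]
      exact rad_nonneg
    · rw [Finset.prod_empty, norm_one]
    · rw [Finset.prod_empty, norm_one]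
  | insert l s hl ih =>
    obtain ⟨h1, h2, h3⟩ := ih
    rw [Finset.prod_insert hl, Finset.prod_insert hl]
    refine ⟨?_, ?_, ?_⟩
    · have e : a l * ∏ l ∈ s, a l - b l * ∏ l ∈ s, b l =
          a l * (∏ l ∈ s, a l - ∏ l ∈ s, b l) + (a l - b l) * ∏ l ∈ s, b l := by ring
      rw [e]
      refine (IsUltrametricDist.norm_add_le_max _ _).trans (max_le ?_ ?_)
      · rw [norm_mul]
        calc ‖a l‖ * ‖∏ l ∈ s, a l - ∏ l ∈ s, b l‖ ≤ 1 * rad ℓ :=
              mul_le_mul (ha l) h1 (norm_nonneg _) zero_le_one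
          _ = rad ℓ := one_mul _
      · rw [norm_mul]
        calc ‖a l - b l‖ * ‖∏ l ∈ s, b l‖ ≤ rad ℓ * 1 :=
              mul_le_mul (h l) h3 (norm_nonneg _) rad_nonneg
          _ = rad ℓ := mul_one _
    · rw [norm_mul]
      exact mul_le_one₀ (ha l) (norm_nonneg _) h2
    · rw [norm_mul]
      exact mul_le_one₀ (hb l) (norm_nonneg _) h3

variable {V Γ : Type} [AddCommGroup V] [Module ℚ_[ℓ] V] [Group Γ] {ρ : Representation ℚ_[ℓ] Γ V}
  {χ : Γ →* ℚ_[ℓ]}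

/-- A subgroup of finite index acts by matrices congruent to one. -/
theorem exists_congr (h : HasLattice ℓ ρ) : ∃ (d : ℕ) (b : Basis (Fin d) ℚ_[ℓ] V)
    (Δ : Subgroup Γ), Δ.FiniteIndex ∧ ∀ g ∈ Δ, BdM (LinearMap.toMatrix b b (ρ g) - 1) (rad ℓ) := by
  classical
  obtain ⟨d, b, hb⟩ := h
  refine ⟨d, b, ?_⟩
  -- the integral matrices
  let N : Γ → Matrix (Fin d) (Fin d) ℤ_[ℓ] := fun s i j => ⟨b.repr (ρ s (b j)) i, hb s i j⟩
  have hN : ∀ s, (N s).map (fun x : ℤ_[ℓ] => (x : ℚ_[ℓ])) = LinearMap.toMatrix b b (ρ s) := by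
    intro s
    ext i j
    rw [LinearMap.toMatrix_apply]
    rfl
  have hinj : Function.Injective (fun A : Matrix (Fin d) (Fin d) ℤ_[ℓ] =>
      A.map (fun x : ℤ_[ℓ] => (x : ℚ_[ℓ]))) := by
    intro A B hAB
    ext i j
    exact Subtype.ext (congrArg (fun C : Matrix (Fin d) (Fin d) ℚ_[ℓ] => C i j) hAB)
  have hmulmap : ∀ A B : Matrix (Fin d) (Fin d) ℤ_[ℓ],
      (A * B).map (fun x : ℤ_[ℓ] => (x : ℚ_[ℓ])) =
      A.map (fun x : ℤ_[ℓ] => (x : ℚ_[ℓ])) * B.map (fun x : ℤ_[ℓ] => (x : ℚ_[ℓ])) := by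
    intro A B
    exact Matrix.map_mul (f := PadicInt.Coe.ringHom)
  let Nh : Γ →* Matrix (Fin d) (Fin d) ℤ_[ℓ] :=
    { toFun := N
      map_one' := by
        apply hinj
        change (N 1).map _ = Matrix.map 1 _
        rw [hN, map_one, LinearMap.toMatrix_one]
        exact (Matrix.map_one (fun x : ℤ_[ℓ] => (x : ℚ_[ℓ])) PadicInt.coe_zero
          PadicInt.coe_one).symm
      map_mul' := by
        intro s t
        apply hinj
        change (N (s * t)).map _ = (N s * N t).map _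
        rw [hmulmap, hN, hN, hN, map_mul, LinearMap.toMatrix_mul] }
  let F : Γ →* Matrix (Fin d) (Fin d) (ZMod (ℓ ^ 2)) :=
    ((PadicInt.toZModPow 2).mapMatrix : Matrix (Fin d) (Fin d) ℤ_[ℓ] →+*
      Matrix (Fin d) (Fin d) (ZMod (ℓ ^ 2))).toMonoidHom.comp Nh
  have hne : NeZero (ℓ ^ 2) := ⟨pow_ne_zero _ hℓ.1.ne_zero⟩
  refine ⟨(MonoidHom.toHomUnits F).ker, Subgroup.finiteIndex_ker _, fun g hg => ?_⟩
  have h1 : F g = 1 := by
    rw [MonoidHom.mem_ker] at hg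
    exact congrArg Units.val hg
  intro i j
  have h3 : PadicInt.toZModPow 2 (N g i j) = (1 : Matrix (Fin d) (Fin d) (ZMod (ℓ ^ 2))) i j :=
    congrArg (fun C : Matrix (Fin d) (Fin d) (ZMod (ℓ ^ 2)) => C i j) h1
  have h4 : PadicInt.toZModPow 2 (N g i j - (1 : Matrix (Fin d) (Fin d) ℤ_[ℓ]) i j) = 0 := by
    rw [map_sub, h3]
    by_cases hij : i = j
    · rw [hij, Matrix.one_apply_eq, Matrix.one_apply_eq, map_one, sub_self]
    · rw [Matrix.one_apply_ne hij, Matrix.one_apply_ne hij, map_zero, sub_self]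
  have h5 : N g i j - (1 : Matrix (Fin d) (Fin d) ℤ_[ℓ]) i j ∈
      Ideal.span {(ℓ : ℤ_[ℓ]) ^ 2} := by
    rw [← PadicInt.ker_toZModPow]
    exact h4
  rw [← PadicInt.norm_le_pow_iff_mem_span_pow] at h5
  have h6 : ((N g i j - (1 : Matrix (Fin d) (Fin d) ℤ_[ℓ]) i j : ℤ_[ℓ]) : ℚ_[ℓ]) =
      (LinearMap.toMatrix b b (ρ g) - 1) i j := by
    rw [Matrix.sub_apply, ← hN, PadicInt.coe_sub, Matrix.map_apply]
    congr 1
    by_cases hij : i = j
    · rw [hij, Matrix.one_apply_eq, Matrix.one_apply_eq, PadicInt.coe_one]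
    · rw [Matrix.one_apply_ne hij, Matrix.one_apply_ne hij, PadicInt.coe_zero]
  rw [← h6]
  unfold rad
  rw [zpow_neg] at h5
  exact_mod_cast h5

/-- The character is congruent to one. -/
theorem chi_congr {d : ℕ} (b : Basis (Fin d) ℚ_[ℓ] V) {g : Γ}
    (hg : BdM (LinearMap.toMatrix b b (ρ g) - 1) (rad ℓ)) {ω : V →ₗ[ℚ_[ℓ]] V →ₗ[ℚ_[ℓ]] ℚ_[ℓ]}
    (hω : ∀ u v, ω (ρ g u) (ρ g v) = χ g * ω u v) (h0 : ∃ u v, ω u v ≠ 0) :
    ‖χ g - 1‖ ≤ rad ℓ := by
  classical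
  obtain ⟨i1, j1, h1⟩ : ∃ i j, ω (b i) (b j) ≠ 0 := by
    by_contra hcon
    push Not at hcon
    obtain ⟨u, v, huv⟩ := h0
    apply huv
    have : ω = 0 := LinearMap.ext_basis b b fun i j => by
      rw [hcon]
      rfl
    rw [this]
    rfl
  have hne : Nonempty (Fin d × Fin d) := ⟨(i1, j1)⟩
  obtain ⟨⟨i0, j0⟩, hmax⟩ := Finite.exists_max (fun l : Fin d × Fin d => ‖ω (b l.1) (b l.2)‖)
  have hpos : 0 < ‖ω (b i0) (b j0)‖ := (norm_pos_iff.2 h1).trans_le (hmax (i1, j1))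
  set A := LinearMap.toMatrix b b (ρ g) with hA
  have hgb : ∀ i, ρ g (b i) = ∑ a, A a i • b a := by
    intro i
    rw [hA]
    conv_lhs => rw [← b.sum_repr (ρ g (b i))]
    refine Finset.sum_congr rfl fun a _ => ?_
    rw [LinearMap.toMatrix_apply]
  have h2 : ω (ρ g (b i0)) (ρ g (b j0)) = ∑ a, ∑ c, A a i0 * A c j0 * ω (b a) (b c) := by
    have e1 : ω (∑ a, A a i0 • b a) = ∑ a, A a i0 • ω (b a) := by
      rw [map_sum]
      exact Finset.sum_congr rfl fun a _ => map_smul _ _ _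
    rw [hgb, hgb, e1, LinearMap.sum_apply]
    refine Finset.sum_congr rfl fun a _ => ?_
    rw [LinearMap.smul_apply, map_sum, Finset.smul_sum]
    refine Finset.sum_congr rfl fun c _ => ?_
    rw [map_smul, smul_smul, smul_eq_mul]
  have h3 : ω (b i0) (b j0) = ∑ a, ∑ c, (1 : Matrix (Fin d) (Fin d) ℚ_[ℓ]) a i0 *
      (1 : Matrix (Fin d) (Fin d) ℚ_[ℓ]) c j0 * ω (b a) (b c) := by
    rw [Finset.sum_eq_single i0, Finset.sum_eq_single j0]
    · rw [Matrix.one_apply_eq, Matrix.one_apply_eq, one_mul, one_mul]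
    · intro c _ hc
      rw [Matrix.one_apply_ne hc, mul_zero, zero_mul]
    · intro h
      exact absurd (Finset.mem_univ _) h
    · intro a _ ha
      refine Finset.sum_eq_zero fun c _ => ?_
      rw [Matrix.one_apply_ne ha, zero_mul, zero_mul]
    · intro h
      exact absurd (Finset.mem_univ _) h
  have h4 : (χ g - 1) * ω (b i0) (b j0) = ∑ a, ∑ c, (A a i0 * A c j0 -
      (1 : Matrix (Fin d) (Fin d) ℚ_[ℓ]) a i0 * (1 : Matrix (Fin d) (Fin d) ℚ_[ℓ]) c j0) *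
        ω (b a) (b c) := by
    rw [sub_mul, ← hω, h2, one_mul]
    conv_lhs => rw [h3]
    rw [← Finset.sum_sub_distrib]
    refine Finset.sum_congr rfl fun a _ => ?_
    rw [← Finset.sum_sub_distrib]
    exact Finset.sum_congr rfl fun c _ => (sub_mul _ _ _).symm
  have hA1 := bdM_of_sub hg
  have h5 : ∀ a i c j, ‖A a i * A c j - (1 : Matrix (Fin d) (Fin d) ℚ_[ℓ]) a i *
      (1 : Matrix (Fin d) (Fin d) ℚ_[ℓ]) c j‖ ≤ rad ℓ := by
    intro a i c j
    have e : A a i * A c j - (1 : Matrix (Fin d) (Fin d) ℚ_[ℓ]) a i *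
        (1 : Matrix (Fin d) (Fin d) ℚ_[ℓ]) c j =
        A a i * (A - 1) c j + (A - 1) a i * (1 : Matrix (Fin d) (Fin d) ℚ_[ℓ]) c j := by
      rw [Matrix.sub_apply, Matrix.sub_apply]
      ring
    rw [e]
    refine (IsUltrametricDist.norm_add_le_max _ _).trans (max_le ?_ ?_)
    · rw [norm_mul]
      calc _ ≤ 1 * rad ℓ := mul_le_mul (hA1 a i) (hg c j) (norm_nonneg _) zero_le_one
        _ = rad ℓ := one_mul _
    · rw [norm_mul]
      calc _ ≤ rad ℓ * 1 := mul_le_mul (hg a i) (BdM.one c j) (norm_nonneg _) rad_nonneg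
        _ = rad ℓ := mul_one _
  have h6 : ‖(χ g - 1) * ω (b i0) (b j0)‖ ≤ rad ℓ * ‖ω (b i0) (b j0)‖ := by
    rw [h4]
    have h7 : 0 ≤ rad ℓ * ‖ω (b i0) (b j0)‖ := mul_nonneg rad_nonneg hpos.le
    refine IsUltrametricDist.norm_sum_le_of_forall_le_of_nonneg h7 fun a _ => ?_
    refine IsUltrametricDist.norm_sum_le_of_forall_le_of_nonneg h7 fun c _ => ?_
    rw [norm_mul]
    exact mul_le_mul (h5 a i0 c j0) (hmax (a, c)) (norm_nonneg _) rad_nonneg
  rw [norm_mul] at h6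
  exact le_of_mul_le_mul_right h6 hpos

/-- **Neat subgroups.** -/
theorem exists_neat_form (h : HasLattice ℓ ρ) {ω : V →ₗ[ℚ_[ℓ]] V →ₗ[ℚ_[ℓ]] ℚ_[ℓ]}
    (hnd : ∀ u, (∀ v, ω u v = 0) → u = 0) (hω : ∀ g u v, ω (ρ g u) (ρ g v) = χ g * ω u v) :
    ∃ Δ : Subgroup Γ, Δ.FiniteIndex ∧ ∀ g ∈ Δ, ∀ (m : ℕ)
      (φ : MultilinearMap ℚ_[ℓ] (fun _ : Fin m × Fin 2 => V) ℚ_[ℓ]) (j : ℕ), 0 < j →
      (∀ v, φ (fun l => ((ρ g) ^ j) (v l)) = (χ g ^ j) ^ m * φ v) →
      ∀ v, φ (fun l => ρ g (v l)) = χ g ^ m * φ v := by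
  classical
  obtain ⟨d, b, Δ, hΔ, hb⟩ := exists_congr h
  refine ⟨Δ, hΔ, fun g hg m φ j hj hφ => ?_⟩
  by_cases h0 : ∃ u v, ω u v ≠ 0
  swap
  · -- the space is zero
    push Not at h0
    have hV : ∀ u : V, u = 0 := fun u => hnd u (h0 u)
    intro v
    have h1 : (fun l => ρ g (v l)) = v := by
      funext l
      rw [hV (v l), map_zero]
    rw [h1]
    rcases Nat.eq_zero_or_pos m with hm | hm
    · subst hm
      rw [pow_zero, one_mul]
    · have h2 : φ v = 0 := φ.map_coord_zero (⟨0, hm⟩, 0) (hV _)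
      rw [h2, mul_zero]
  have hA := hb g hg
  have hc := chi_congr b hA (fun u v => hω g u v) h0
  set A := LinearMap.toMatrix b b (ρ g) with hAdef
  have hA1 := bdM_of_sub hA
  have hc1 : ‖χ g‖ = 1 := by
    have h1 : rad ℓ < 1 := by
      unfold rad
      have hl : (1 : ℝ) < ℓ := by exact_mod_cast hℓ.1.one_lt
      exact inv_lt_one_of_one_lt₀ (one_lt_pow₀ hl (by norm_num))
    have h2 : ‖χ g - 1‖ < ‖(1 : ℚ_[ℓ])‖ := by
      rw [norm_one]
      exact hc.trans_lt h1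
    have h3 := IsUltrametricDist.norm_add_eq_max_of_norm_ne_norm h2.ne
    rw [sub_add_cancel, max_eq_right h2.le, norm_one] at h3
    exact h3
  have hχ0 : χ g ≠ 0 := by
    intro h
    rw [h, norm_zero] at hc1
    exact zero_ne_one hc1
  -- the scalar
  obtain ⟨c, hcdef⟩ : ∃ c : ℚ_[ℓ], c = (χ g ^ m)⁻¹ := ⟨_, rfl⟩
  have hcn : ‖c‖ = 1 := by
    rw [hcdef, norm_inv, norm_pow, hc1, one_pow, inv_one]
  have hcc : ‖c - 1‖ ≤ rad ℓ := by
    have h1 := (prod_near (Finset.range m) (fun _ => χ g) (fun _ => (1 : ℚ_[ℓ]))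
      (fun _ => hc1.le) (fun _ => norm_one.le) (fun _ => hc)).1
    rw [Finset.prod_const, Finset.prod_const, Finset.card_range, one_pow] at h1
    have h2 : c - 1 = -(c * (χ g ^ m - 1)) := by
      rw [mul_sub, hcdef, inv_mul_cancel₀ (pow_ne_zero _ hχ0)]
      ring
    rw [h2, norm_neg, norm_mul, hcn, one_mul]
    exact h1
  -- the matrix of the action on the forms
  let T : Matrix (Fin m × Fin 2 → Fin d) (Fin m × Fin 2 → Fin d) ℚ_[ℓ] := fun I J =>
    c * ∏ l, A (J l) (I l)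
  have hT : BdM (T - 1) (rad ℓ) := by
    intro I J
    have h1 := prod_near Finset.univ (fun l => A (J l) (I l))
      (fun l => (1 : Matrix (Fin d) (Fin d) ℚ_[ℓ]) (J l) (I l)) (fun l => hA1 _ _)
      (fun l => BdM.one _ _) (fun l => by
        have := hA (J l) (I l)
        rwa [Matrix.sub_apply] at this)
    have h2 : (1 : Matrix (Fin m × Fin 2 → Fin d) (Fin m × Fin 2 → Fin d) ℚ_[ℓ]) I J =
        ∏ l, (1 : Matrix (Fin d) (Fin d) ℚ_[ℓ]) (J l) (I l) := by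
      by_cases hIJ : I = J
      · subst hIJ
        rw [Matrix.one_apply_eq, Finset.prod_eq_one fun l _ => Matrix.one_apply_eq _]
      · rw [Matrix.one_apply_ne hIJ]
        obtain ⟨l, hl⟩ := Function.ne_iff.1 hIJ
        refine (Finset.prod_eq_zero (Finset.mem_univ l) ?_).symm
        exact Matrix.one_apply_ne fun h => hl h.symm
    rw [Matrix.sub_apply, h2]
    have h3 : T I J - ∏ l, (1 : Matrix (Fin d) (Fin d) ℚ_[ℓ]) (J l) (I l) =
        c * (∏ l, A (J l) (I l) - ∏ l, (1 : Matrix (Fin d) (Fin d) ℚ_[ℓ]) (J l) (I l)) +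
          (c - 1) * ∏ l, (1 : Matrix (Fin d) (Fin d) ℚ_[ℓ]) (J l) (I l) := by
      change c * ∏ l, A (J l) (I l) - _ = _
      ring
    rw [h3]
    refine (IsUltrametricDist.norm_add_le_max _ _).trans (max_le ?_ ?_)
    · rw [norm_mul, hcn, one_mul]
      exact h1.1
    · rw [norm_mul]
      calc _ ≤ rad ℓ * 1 := mul_le_mul hcc h1.2.2 (norm_nonneg _) rad_nonneg
        _ = rad ℓ := mul_one _
  -- the action in coordinates
  have hgb : ∀ i, ρ g (b i) = ∑ a, A a i • b a := by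
    intro i
    rw [hAdef]
    conv_lhs => rw [← b.sum_repr (ρ g (b i))]
    refine Finset.sum_congr rfl fun a _ => ?_
    rw [LinearMap.toMatrix_apply]
  have hact : ∀ (ψ : MultilinearMap ℚ_[ℓ] (fun _ : Fin m × Fin 2 => V) ℚ_[ℓ]),
      T.mulVec (fun I : Fin m × Fin 2 → Fin d => ψ (fun l => b (I l))) =
        fun I : Fin m × Fin 2 → Fin d => c * ψ (fun l => ρ g (b (I l))) := by
    intro ψ
    funext I
    change ∑ J : Fin m × Fin 2 → Fin d, (c * ∏ l, A (J l) (I l)) * ψ (fun l => b (J l)) = _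
    simp only [hgb]
    rw [MultilinearMap.map_sum, Finset.mul_sum]
    refine Finset.sum_congr rfl fun J _ => ?_
    rw [MultilinearMap.map_smul_univ, smul_eq_mul, mul_assoc]
  have hpow : ∀ n : ℕ, (T ^ n).mulVec (fun I : Fin m × Fin 2 → Fin d => φ (fun l => b (I l))) =
      fun I : Fin m × Fin 2 → Fin d => c ^ n * φ (fun l => ((ρ g) ^ n) (b (I l))) := by
    intro n
    induction n with
    | zero =>
      rw [pow_zero, Matrix.one_mulVec]
      funext I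
      rw [pow_zero, one_mul, pow_zero]
      rfl
    | succ n ih =>
      rw [pow_succ', ← Matrix.mulVec_mulVec, ih]
      have h1 := hact (c ^ n • φ.compLinearMap (fun _ => (ρ g) ^ n))
      have h2 : (fun I : Fin m × Fin 2 → Fin d =>
          (c ^ n • φ.compLinearMap (fun _ => (ρ g) ^ n)) (fun l => b (I l))) =
          fun I : Fin m × Fin 2 → Fin d => c ^ n * φ (fun l => ((ρ g) ^ n) (b (I l))) := rfl
      rw [h2] at h1
      rw [h1]
      funext I
      change c * (c ^ n * φ (fun l => ((ρ g) ^ n) (ρ g (b (I l))))) = _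
      rw [← mul_assoc, ← pow_succ']
      congr 2
  have h1 : (T ^ j).mulVec (fun I : Fin m × Fin 2 → Fin d => φ (fun l => b (I l))) =
      fun I : Fin m × Fin 2 → Fin d => φ (fun l => b (I l)) := by
    rw [hpow]
    funext I
    have h2 := hφ (fun l => b (I l))
    rw [h2, ← mul_assoc, hcdef]
    have h3 : (χ g ^ m)⁻¹ ^ j * (χ g ^ j) ^ m = 1 := by
      rw [inv_pow, ← pow_mul, ← pow_mul, mul_comm m j, inv_mul_cancel₀ (pow_ne_zero _ hχ0)]
    rw [h3, one_mul]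
  have h2 := fix_pow j T hT hj h1
  rw [hact] at h2
  have h3 : φ.compLinearMap (fun _ => ρ g) = χ g ^ m • φ := by
    refine Basis.ext_multilinear (fun _ => b) fun I => ?_
    have h4 := congrFun h2 I
    rw [MultilinearMap.compLinearMap_apply, smul_apply, smul_eq_mul]
    rw [← h4, hcdef, ← mul_assoc, mul_inv_cancel₀ (pow_ne_zero _ hχ0), one_mul]
  intro v
  exact congrArg (fun F : MultilinearMap ℚ_[ℓ] (fun _ : Fin m × Fin 2 => V) ℚ_[ℓ] => F v) h3

end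

end Pool.Agent.E8helper53.QF
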