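import Mathlib
import Pool.Agent.E8helper1.CT.Tors

/-!
# Forms killed by the logarithm of a unipotent operator and by the slopes
-/

set_option autoImplicit false
set_option linter.unusedSectionVars false

namespace Pool.Agent.E8helper53.QF

open Module TensorProduct Pool.Agent.H204R3.SP Pool.Agent.H204R3.GP Pool.Agent.W522.U
  Pool.Agent.W528.Odd Pool.Agent.TH118.CR
open Pool.Agent.E8helper1.AP (Jb ext_one exists_jb fK fK_unit mem_pow vanish' lg lg_kill bp bp_zero
  bp_one bp_eval unip_expand stable_gen)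
open Pool.Agent.E8helper1.CT

noncomputable section

section closed

variable {K : Type} [Field K] [CharZero K] {X : Type} [AddCommGroup X] [Module K X]

/-- The values of a form along the powers of a unipotent operator are the values of a polynomial. -/
theorem unip_poly {N : Module.End K X} {n : ℕ} (hN : N ^ n = 0) {κ : Type} [Fintype κ]
    [DecidableEq κ] (φ : MultilinearMap K (fun _ : κ => X) K) (v : κ → X) :
    ∃ P : Polynomial K, (∀ t : ℕ, P.eval (t : K) = φ (fun k => ((1 + N) ^ t) (v k))) ∧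
      P.derivative.eval 0 = ∑ k, φ (Function.update v k (lg N n (v k))) := by
  -- expansion
  have hexp : ∀ a : κ → Fin n → K, φ (fun k => ∑ j : Fin n, a k j • (N ^ (j : ℕ)) (v k)) =
      ∑ J : κ → Fin n, (∏ k, a k (J k)) * φ (fun k => (N ^ (J k : ℕ)) (v k)) := by
    intro a
    rw [MultilinearMap.map_sum]
    refine Finset.sum_congr rfl fun J _ => ?_
    rw [MultilinearMap.map_smul_univ, smul_eq_mul]
  have hpow : ∀ (t : ℕ) (w : X), ((1 + N) ^ t) w =
      ∑ j : Fin n, ((t.choose j : ℕ) : K) • (N ^ (j : ℕ)) w := by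
    intro t w
    rw [unip_expand hN, LinearMap.sum_apply, Finset.sum_range]
    rfl
  let P : Polynomial K := ∑ J : κ → Fin n, (∏ k, bp K (J k)) *
    Polynomial.C (φ (fun k => (N ^ (J k : ℕ)) (v k)))
  refine ⟨P, ?_, ?_⟩
  · intro t
    simp only [hpow]
    rw [hexp (fun _ j => ((t.choose j : ℕ) : K)), Polynomial.eval_finsetSum]
    refine Finset.sum_congr rfl fun J _ => ?_
    rw [Polynomial.eval_mul, Polynomial.eval_C, Polynomial.eval_prod]
    congr 1
    exact Finset.prod_congr rfl fun k _ => bp_eval _ _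
  have h2 : P.derivative.eval 0 = ∑ J : κ → Fin n, (∑ k, (∏ l ∈ Finset.univ.erase k,
      (bp K (J l)).eval 0) * (bp K (J k)).derivative.eval 0) *
      φ (fun k => (N ^ (J k : ℕ)) (v k)) := by
    simp only [P]
    rw [Polynomial.derivative_sum, Polynomial.eval_finsetSum]
    refine Finset.sum_congr rfl fun J _ => ?_
    rw [Polynomial.derivative_mul, Polynomial.derivative_C, mul_zero, add_zero,
      Polynomial.eval_mul, Polynomial.eval_C, Polynomial.derivative_prod_finset,
      Polynomial.eval_finsetSum]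
    congr 1
    refine Finset.sum_congr rfl fun k _ => ?_
    rw [Polynomial.eval_mul, Polynomial.eval_prod]
  rw [h2]
  simp only [Finset.sum_mul]
  rw [Finset.sum_comm]
  refine Finset.sum_congr rfl fun k _ => ?_
  let a : κ → Fin n → K := fun l j => if l = k then (bp K j).derivative.eval 0 else (bp K j).eval 0
  have h3 : Function.update v k (lg N n (v k)) =
      fun l => ∑ j : Fin n, a l j • (N ^ (j : ℕ)) (v l) := by
    funext l
    by_cases hl : l = k
    · subst hl
      rw [Function.update_self]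
      unfold lg
      rw [LinearMap.sum_apply, Finset.sum_range]
      refine Finset.sum_congr rfl fun j _ => ?_
      simp only [a, if_pos rfl]
      rfl
    · rw [Function.update_of_ne hl]
      have h4 := hpow 0 (v l)
      rw [pow_zero, Module.End.one_apply] at h4
      rw [h4]
      refine Finset.sum_congr rfl fun j _ => ?_
      simp only [a, if_neg hl]
      congr 1
      rw [← bp_eval, Nat.cast_zero]
      rw [← h4]
  rw [h3, hexp]
  refine Finset.sum_congr rfl fun J _ => ?_
  congr 1
  rw [← Finset.prod_erase_mul _ _ (Finset.mem_univ k)]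
  congr 1
  · refine Finset.prod_congr rfl fun l hl => ?_
    simp only [a, if_neg (Finset.ne_of_mem_erase hl)]
  · simp only [a, if_pos rfl]

/-- A form killed by the logarithm of a unipotent operator is invariant. -/
theorem unip_inv {N : Module.End K X} {n : ℕ} (hN : N ^ n = 0) {κ : Type} [Fintype κ]
    [DecidableEq κ] {φ : MultilinearMap K (fun _ : κ => X) K} (h : Kills (lg N n) φ) (t : ℕ)
    (v : κ → X) : φ (fun k => ((1 + N) ^ t) (v k)) = φ v := by
  classical
  choose P hP hP' using unip_poly hN φ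
  have h1 : ∀ s : ℕ, (P v).comp (Polynomial.X + Polynomial.C (s : K)) =
      P (fun k => ((1 + N) ^ s) (v k)) := by
    intro s
    rw [← sub_eq_zero]
    refine Polynomial.eq_zero_of_infinite_isRoot _ ?_
    refine Set.infinite_of_injective_forall_mem (f := fun k : ℕ => (k : K))
      (fun a b hab => Nat.cast_injective hab) ?_
    intro k
    change Polynomial.IsRoot _ _
    rw [Polynomial.IsRoot, Polynomial.eval_sub, Polynomial.eval_comp, Polynomial.eval_add,
      Polynomial.eval_X, Polynomial.eval_C, hP, ← Nat.cast_add, hP, sub_eq_zero]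
    congr 1
    funext l
    rw [← Module.End.mul_apply, ← pow_add]
  have h2 : (P v).derivative = 0 := by
    refine Polynomial.eq_zero_of_infinite_isRoot _ ?_
    refine Set.infinite_of_injective_forall_mem (f := fun k : ℕ => (k : K))
      (fun a b hab => Nat.cast_injective hab) ?_
    intro s
    change Polynomial.IsRoot _ _
    rw [Polynomial.IsRoot]
    have h3 : (P (fun k => ((1 + N) ^ s) (v k))).derivative.eval 0 = 0 := by
      rw [hP']
      exact h _
    rw [← h1 s, Polynomial.derivative_comp, Polynomial.derivative_add, Polynomial.derivative_X,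
      Polynomial.derivative_C, add_zero, one_mul, Polynomial.eval_comp, Polynomial.eval_add,
      Polynomial.eval_X, Polynomial.eval_C, zero_add] at h3
    exact h3
  have h3 := Polynomial.eq_C_of_derivative_eq_zero h2
  have h4 := hP v t
  have h5 := hP v 0
  rw [h3, Polynomial.eval_C] at h4 h5
  rw [← h4, h5]
  congr 1

variable [FiniteDimensional K X]

/-- **A form killed by the slopes and by the logarithm of the unipotent part of an operator is
invariant under a power.** -/
theorem inv_form [IsAlgClosed K] {κ : Type} [Fintype κ] [DecidableEq κ] {G : Module.End K X}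
    (J : Jb G) (hG : ∀ p, J.lam p ≠ 0) {φ : MultilinearMap K (fun _ : κ => X) K}
    (h1 : ∀ a : Additive Kˣ →+ K, Kills (J.op (fun c => fK a c • 1)) φ)
    (h2 : Kills (lg (J.un - 1) (finrank K X)) φ) :
    ∃ M : ℕ, 0 < M ∧ ∀ v, φ (fun k => (G ^ M) (v k)) = φ v := by
  classical
  have _ := J.fι
  -- the torsion
  have h3 : ∀ I : κ → J.ι, φ (fun l => J.e (I l)) ≠ 0 → ∃ j : ℕ, 0 < j ∧
      (∏ l, J.lam (I l)) ^ j = 1 := by
    intro I hI
    by_contra hcon
    push Not at hcon
    let x : Kˣ := ∏ l, Units.mk0 _ (hG (I l))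
    obtain ⟨a, ha⟩ := exists_add x (by
      intro j hj h
      apply hcon j hj
      have h4 := congrArg (fun x : Kˣ => (x : K)) h
      simp only [x, Units.val_pow_eq_pow_val, Units.coe_prod, Units.val_mk0, Units.val_one] at h4
      exact h4)
    apply ha
    have h4 := h1 a (fun l => J.e (I l))
    have h5 : ∀ l : κ, φ (Function.update (fun l => J.e (I l)) l
        (J.op (fun c => fK a c • 1) (J.e (I l)))) =
        fK a (J.lam (I l)) * φ (fun l => J.e (I l)) := by
      intro l
      rw [J.op_on _ (J.mem (I l)), LinearMap.smul_apply, Module.End.one_apply,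
        MultilinearMap.map_update_smul, smul_eq_mul, Function.update_eq_self]
    rw [Finset.sum_congr rfl fun l _ => h5 l, ← Finset.sum_mul] at h4
    have h6 := (mul_eq_zero.1 h4).resolve_right hI
    rw [← h6]
    simp only [x, ofMul_prod, map_sum]
    refine Finset.sum_congr rfl fun l _ => ?_
    rw [← fK_unit, Units.val_mk0]
  choose! j hj0 hj using h3
  let S : Finset (κ → J.ι) := Finset.univ.filter fun I => φ (fun l => J.e (I l)) ≠ 0
  obtain ⟨M, hM0, hM⟩ : ∃ M : ℕ, 0 < M ∧ ∀ I : κ → J.ι, φ (fun l => J.e (I l)) ≠ 0 →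
      (∏ l, J.lam (I l)) ^ M = 1 := by
    refine ⟨∏ I ∈ S, j I, Finset.prod_pos fun I hI => ?_, fun I hI => ?_⟩
    · exact hj0 _ (Finset.mem_filter.1 hI).2
    · obtain ⟨i, hi⟩ := Finset.dvd_prod_of_mem j
        (show I ∈ S from Finset.mem_filter.2 ⟨Finset.mem_univ _, hI⟩)
      rw [hi, pow_mul, hj I hI, one_pow]
  refine ⟨M, hM0, ?_⟩
  have h4 : φ.compLinearMap (fun _ => G ^ M) = φ := by
    refine Basis.ext_multilinear (fun _ => J.e) fun I => ?_
    rw [MultilinearMap.compLinearMap_apply]
    have h5 : ∀ l, (G ^ M) (J.e (I l)) = J.lam (I l) ^ M • (J.un ^ M) (J.e (I l)) := by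
      intro l
      rw [J.un_pow M (J.mem (I l)), smul_smul, _root_.inv_pow, mul_inv_cancel₀ (pow_ne_zero M (hG _)),
        one_smul]
    simp only [h5]
    rw [MultilinearMap.map_smul_univ, Finset.prod_pow]
    have h6 := unip_inv (un_nil J hG) h2 M (fun l => J.e (I l))
    have h7 : (1 + (J.un - 1)) = J.un := by abel
    rw [h7] at h6
    rw [h6]
    by_cases h0 : φ (fun l => J.e (I l)) = 0
    · rw [h0, smul_zero]
    · rw [hM I h0, one_smul]
  intro v
  exact congrArg (fun F : MultilinearMap K (fun _ : κ => X) K => F v) h4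

end closed

section ext

variable {k Ω : Type} [Field k] [CharZero k] [Field Ω] [CharZero Ω] [Algebra k Ω] [IsAlgClosed Ω]
  {V Γ : Type} [AddCommGroup V] [Module k V] [FiniteDimensional k V] [Group Γ]
  {ρ : Representation k Γ V} {χ : Γ →* k}

/-- An operator over the algebraic closure that kills all Tate forms kills every form which is killed
by the Lie algebra. -/
theorem kills_of_lieT {κ : Type} [Fintype κ] [DecidableEq κ]
    {φ : MultilinearMap k (fun _ : κ => V) k} (hφ : ∀ z ∈ lieT ρ χ, Kills z φ)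
    {y : Module.End Ω (Ω ⊗[k] V)}
    (hy : ∀ (j : ℕ) (φ : MultilinearMap k (fun _ : Fin j × Fin 2 => V) k), IsTate ρ χ j φ →
      Kills y (bcm (Ω := Ω) (Module.finBasis k V) φ)) :
    Kills y (bcm (Ω := Ω) (Module.finBasis k V) φ) := by
  classical
  obtain ⟨F, -, hsum⟩ := exists_oc (Basis.ofVectorSpace k Ω) y
  have h1 : ∀ i, Kills ((oc (Basis.ofVectorSpace k Ω) y i).baseChange Ω)
      (bcm (Ω := Ω) (Module.finBasis k V) φ) := by
    intro i
    refine kills_bcm (hφ _ ?_)
    intro j φ' hφ'
    exact oc_kills _ (hy j φ' hφ') i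
  intro v
  have h2 : ∀ l, (bcm (Ω := Ω) (Module.finBasis k V) φ) (Function.update v l (y (v l))) =
      ∑ i ∈ F, (Basis.ofVectorSpace k Ω) i * (bcm (Ω := Ω) (Module.finBasis k V) φ)
        (Function.update v l (((oc (Basis.ofVectorSpace k Ω) y i).baseChange Ω) (v l))) := by
    intro l
    have h3 : y (v l) = ∑ i ∈ F, (Basis.ofVectorSpace k Ω) i •
        ((oc (Basis.ofVectorSpace k Ω) y i).baseChange Ω) (v l) := by
      conv_lhs => rw [hsum]
      rw [LinearMap.sum_apply]
      rfl
    rw [h3, MultilinearMap.map_update_sum]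
    refine Finset.sum_congr rfl fun i _ => ?_
    rw [MultilinearMap.map_update_smul, smul_eq_mul]
  rw [Finset.sum_congr rfl fun l _ => h2 l, Finset.sum_comm]
  refine Finset.sum_eq_zero fun i _ => ?_
  rw [← Finset.mul_sum, h1 i v, mul_zero]

/-- **A form of degree `2 m` killed by the Lie algebra is transformed by a power of each element of
the group by the `m`-th power of the character.** -/
theorem tors_form (Ω : Type) [Field Ω] [CharZero Ω] [Algebra k Ω] [IsAlgClosed Ω] {m : ℕ}
    {φ : MultilinearMap k (fun _ : Fin m × Fin 2 => V) k} (hφ : ∀ z ∈ lieT ρ χ, Kills z φ)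
    (γ : Γ) : ∃ j : ℕ, 0 < j ∧ ∀ v, φ (fun l => ((ρ γ) ^ j) (v l)) = (χ γ ^ j) ^ m * φ v := by
  classical
  have hχ0 : χ γ ≠ 0 := by
    intro h
    have h1 : χ γ * χ γ⁻¹ = 1 := by rw [← map_mul, mul_inv_cancel, map_one]
    rw [h, zero_mul] at h1
    exact zero_ne_one h1
  obtain ⟨δ, hδ⟩ := IsAlgClosed.exists_pow_nat_eq (algebraMap k Ω (χ γ)) (n := 2) (by norm_num)
  have hδ0 : δ ≠ 0 := by
    intro h
    rw [h, zero_pow (by norm_num)] at hδ
    exact hχ0 ((map_eq_zero _).1 hδ.symm)
  obtain ⟨G, hG⟩ : ∃ G : Module.End Ω (Ω ⊗[k] V), G = δ⁻¹ • (ρ γ).baseChange Ω := ⟨_, rfl⟩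
  have hGpow : ∀ M : ℕ, G ^ M = δ⁻¹ ^ M • ((ρ γ) ^ M).baseChange Ω := by
    intro M
    rw [hG, smul_pow, baseChange_pow]
  -- the value at the elements of `V`
  have hval : ∀ (M j : ℕ) (φ : MultilinearMap k (fun _ : Fin j × Fin 2 => V) k) (v : _ → V),
      bcm (Ω := Ω) (Module.finBasis k V) φ (fun l => (G ^ M) ((1 : Ω) ⊗ₜ[k] v l)) *
        algebraMap k Ω ((χ γ ^ M) ^ j) =
        algebraMap k Ω (φ (fun l => ((ρ γ) ^ M) (v l))) := by
    intro M j φ v
    have h3 : (fun l => (G ^ M) ((1 : Ω) ⊗ₜ[k] v l)) =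
        fun l => δ⁻¹ ^ M • ((1 : Ω) ⊗ₜ[k] ((ρ γ) ^ M) (v l)) := by
      funext l
      rw [hGpow, LinearMap.smul_apply, LinearMap.baseChange_tmul]
    rw [h3, MultilinearMap.map_smul_univ, bcm_one, Finset.prod_const, Finset.card_univ,
      Fintype.card_prod, Fintype.card_fin, Fintype.card_fin, map_pow, map_pow, ← hδ, smul_eq_mul]
    have h4 : (δ⁻¹ ^ M) ^ (j * 2) * ((δ ^ 2) ^ M) ^ j = 1 := by
      rw [← pow_mul, ← pow_mul, ← pow_mul, _root_.inv_pow]
      have h5 : M * (j * 2) = 2 * (M * j) := by ring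
      have h6 : 2 * (M * j) = 2 * M * j := by ring
      rw [h5, ← _root_.inv_pow, ← mul_pow, inv_mul_cancel₀ hδ0, one_pow]
    linear_combination (algebraMap k Ω (φ (fun l => ((ρ γ) ^ M) (v l)))) * h4
  have hGφ : ∀ (j : ℕ) (φ : MultilinearMap k (fun _ : Fin j × Fin 2 => V) k), IsTate ρ χ j φ →
      ∃ M : ℕ, M ≠ 0 ∧ ∀ v, bcm (Ω := Ω) (Module.finBasis k V) φ (fun l => (G ^ M) (v l)) =
        bcm (Ω := Ω) (Module.finBasis k V) φ v := by
    rintro j φ ⟨Δ, hΔ, hφ⟩
    obtain ⟨M, hM0, hM⟩ := exists_pow_mem Δ hΔ γ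
    refine ⟨M, hM0, fun v => ?_⟩
    have h1 := hφ _ hM
    have h2 : (bcm (Ω := Ω) (Module.finBasis k V) φ).compLinearMap (fun _ => G ^ M) =
        bcm (Ω := Ω) (Module.finBasis k V) φ := by
      refine ext_one fun v => ?_
      rw [MultilinearMap.compLinearMap_apply, bcm_one]
      have h3 := hval M j φ v
      have h4 := h1 v
      rw [map_pow, map_pow] at h4
      rw [h4, map_mul] at h3
      have h5 : algebraMap k Ω ((χ γ ^ M) ^ j) ≠ 0 :=
        (map_ne_zero _).2 (pow_ne_zero _ (pow_ne_zero _ hχ0))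
      rw [mul_comm] at h3
      exact mul_left_cancel₀ h5 h3
    exact congrArg (fun F : MultilinearMap Ω (fun _ : Fin j × Fin 2 => Ω ⊗[k] V) Ω => F v) h2
  obtain ⟨J⟩ := exists_jb G
  have hinj : ∀ v, G v = 0 → v = 0 := by
    intro v hv
    have h1 : ((ρ γ⁻¹).baseChange Ω) (G v) = δ⁻¹ • v := by
      rw [hG, LinearMap.smul_apply, map_smul, ← Module.End.mul_apply, ← LinearMap.baseChange_mul,
        ← map_mul, inv_mul_cancel, map_one]
      congr 1
      exact LinearMap.congr_fun LinearMap.baseChange_id v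
    rw [hv, map_zero] at h1
    exact (smul_eq_zero.1 h1.symm).resolve_left (inv_ne_zero hδ0)
  have hlam : ∀ p, J.lam p ≠ 0 := lam_ne J hinj
  obtain ⟨M, hM0, hM⟩ := inv_form J hlam (φ := bcm (Ω := Ω) (Module.finBasis k V) φ)
    (fun a => kills_of_lieT hφ fun i φ' hφ' => by
      obtain ⟨M, hM0, hM⟩ := hGφ i φ' hφ'
      exact slope_kill J hM0 hM a)
    (kills_of_lieT hφ fun i φ' hφ' => by
      obtain ⟨M, hM0, hM⟩ := hGφ i φ' hφ'
      exact un_kill J hlam hM0 hM)
  refine ⟨M, hM0, fun v => ?_⟩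
  apply (algebraMap k Ω).injective
  rw [← hval M m φ v, hM, bcm_one, map_mul, mul_comm]

end ext

end

end Pool.Agent.E8helper53.QF
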