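import Mathlib
import Pool.Agent.E8helper53.QF.Unip
import Pool.Agent.E8helper53.QF.NeatF
import Pool.Agent.E8helper1.CT.Alt

/-!
# Forms killed by the Lie algebra of the Tate forms are Tate forms
-/

set_option autoImplicit false
set_option linter.unusedSectionVars false

namespace Pool.Agent.E8helper53.QF

open Module TensorProduct Pool.Agent.H204R3.SP Pool.Agent.H204R3.GP Pool.Agent.W522.U
  Pool.Agent.W528.Odd Pool.Agent.TH118.CR
open Pool.Agent.E8helper1.CT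

variable {ℓ : ℕ} [hℓ : Fact ℓ.Prime] {V Γ : Type} [AddCommGroup V] [Module ℚ_[ℓ] V]
  [FiniteDimensional ℚ_[ℓ] V] [Group Γ] {ρ : Representation ℚ_[ℓ] Γ V} {χ : Γ →* ℚ_[ℓ]}
  {ω : V →ₗ[ℚ_[ℓ]] V →ₗ[ℚ_[ℓ]] ℚ_[ℓ]}

/-- **Double annihilator, uniform in the form.** -/
theorem exists_uniform (hlat : HasLattice ℓ ρ) (hnd : ∀ u, (∀ v, ω u v = 0) → u = 0)
    (hω : ∀ g u v, ω (ρ g u) (ρ g v) = χ g * ω u v) :
    ∃ Δ : Subgroup Γ, Δ.FiniteIndex ∧ ∀ (m : ℕ)
      (φ : MultilinearMap ℚ_[ℓ] (fun _ : Fin m × Fin 2 => V) ℚ_[ℓ]),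
      (∀ z ∈ lieT ρ χ, Kills z φ) → ∀ s ∈ Δ, ∀ v, φ (fun l => ρ s (v l)) = χ s ^ m * φ v := by
  obtain ⟨Δ, hΔ, h⟩ := exists_neat_form hlat hnd hω
  refine ⟨Δ, hΔ, fun m φ hφ s hs => ?_⟩
  obtain ⟨j, hj, h1⟩ := tors_form (AlgebraicClosure ℚ_[ℓ]) hφ s
  exact h s hs m φ j hj h1

/-- **Double annihilator for the classes on the powers.** -/
theorem tateOn_of_ann (hlat : HasLattice ℓ ρ) (hnd : ∀ u, (∀ v, ω u v = 0) → u = 0)
    (hω : ∀ g u v, ω (ρ g u) (ρ g v) = χ g * ω u v) {n m r : ℕ} (e : Fin m × Fin 2 ≃ Fin r)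
    {F : (Fin n → V) [⋀^Fin r]→ₗ[ℚ_[ℓ]] ℚ_[ℓ]} (hF : ∀ z ∈ lieT ρ χ, Ann z F) :
    TateOn ρ χ m F := by
  classical
  obtain ⟨Δ, hΔ, hu⟩ := exists_uniform hlat hnd hω
  refine ⟨Δ, hΔ, fun s hs => ?_⟩
  let fc : (Fin r → Fin n) → MultilinearMap ℚ_[ℓ] (fun _ : Fin m × Fin 2 => V) ℚ_[ℓ] := fun c =>
    (F.toMultilinearMap.compLinearMap
      (fun l => LinearMap.single ℚ_[ℓ] (fun _ : Fin n => V) (c l))).domDomCongr e.symm
  have hfc0 : ∀ c u, fc c u = F fun l => Pi.single (c l) (u (e.symm l)) := fun c u => rfl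
  have hsum : ∀ v : Fin r → Fin n → V, F v = ∑ c : Fin r → Fin n, fc c fun p => v (e p) (c (e p)) := by
    intro v
    have h1 : v = fun l => ∑ i, Pi.single i (v l i) := by
      funext l
      exact (Finset.univ_sum_single (v l)).symm
    have h2 := F.toMultilinearMap.map_sum (fun l i => (Pi.single i (v l i) : Fin n → V))
    conv_lhs => rw [h1]
    change F.toMultilinearMap _ = _
    rw [h2]
    refine Finset.sum_congr rfl fun c _ => ?_
    rw [hfc0]
    change F _ = _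
    congr 1
    funext l
    rw [Equiv.apply_symm_apply]
  have hk : ∀ c, ∀ z ∈ lieT ρ χ, Kills z (fc c) := by
    intro c z hz u
    have h1 := hF z hz (fun l => Pi.single (c l) (u (e.symm l)))
    rw [← h1]
    refine Fintype.sum_equiv e _ _ fun p => ?_
    rw [hfc0]
    congr 1
    funext l
    by_cases hl : l = e p
    · subst hl
      rw [Equiv.symm_apply_apply, Function.update_self, Function.update_self]
      funext j
      by_cases hj : j = c (e p)
      · rw [hj, Pi.single_eq_same, Pi.single_eq_same]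
      · rw [Pi.single_eq_of_ne hj, Pi.single_eq_of_ne hj, map_zero]
    · rw [Function.update_of_ne hl,
        Function.update_of_ne (fun h => hl (by rw [← h, Equiv.apply_symm_apply]))]
  intro v
  rw [hsum, hsum, Finset.mul_sum]
  refine Finset.sum_congr rfl fun c _ => ?_
  exact hu m (fc c) (hk c) s hs (fun p => v (e p) (c (e p)))

end Pool.Agent.E8helper53.QF
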