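import Mathlib
import Pool.Agent.E8helper1.CT.MT

/-!
# Rational components of forms and of operators
-/

set_option autoImplicit false
set_option linter.unusedSectionVars false

namespace Pool.Agent.E8helper53.QF

open Matrix Module TensorProduct Pool.Agent.H204R3.CM Pool.Agent.H204R3.SP Pool.Agent.H204R3.GP
  Pool.Agent.W437.HC Pool.Agent.W516.MTD Pool.Agent.E8helper1.NU Pool.Agent.E8helper1.CT
open Pool.Agent.E8helper1

variable {K : Type} [Field K] [CharZero K] {W : Type} [AddCommGroup W] [Module ℚ W]
  [FiniteDimensional ℚ W] {n r : ℕ}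

theorem hM (q : ℚ) (x : K) : q • x = (q : K) • x := by rw [Rat.smul_def, smul_eq_mul]

/-- Forms are combinations of the extensions of their rational components. -/
theorem exists_decomp (F : (Fin n → K ⊗[ℚ] W) [⋀^Fin r]→ₗ[K] K) :
    ∃ (q : ℕ) (mu : Fin q → K →ₗ[ℚ] ℚ) (y : Fin q → K),
      F = ∑ j, y j • NU.extend K ((mu j).compAlternatingMap (restr F hM)) := by
  classical
  obtain ⟨q, mu, y, hmu⟩ := MTA.exists_mu (restr F hM)
  refine ⟨q, mu, y, ?_⟩
  refine ext_of_rat fun w => ?_
  have h2 : F (fun l => inc K W n (w l)) = restr F hM w := rfl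
  rw [h2, hmu w]
  have h3 : ∀ (s : Finset (Fin q)), (∑ j ∈ s, y j •
      NU.extend K ((mu j).compAlternatingMap (restr F hM)))
      (fun l => inc K W n (w l)) = ∑ j ∈ s, mu j (restr F hM w) • y j := by
    intro s
    induction s using Finset.induction_on with
    | empty => rfl
    | insert j s hj ih =>
      rw [Finset.sum_insert hj, Finset.sum_insert hj, AlternatingMap.add_apply, ih]
      congr 1
      rw [AlternatingMap.smul_apply]
      have h4 := compares_extend (K := K) ((mu j).compAlternatingMap (restr F hM)) w
      change NU.extend K ((mu j).compAlternatingMap (restr F hM)) (fun l => inc K W n (w l)) = _ at h4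
      rw [h4, hM, smul_eq_mul, smul_eq_mul, mul_comm]
      rfl
  exact (h3 _).symm

theorem update_inc (w : Fin r → Fin n → W) (l : Fin r) (u : Fin n → W) :
    Function.update (fun l => inc K W n (w l)) l (inc K W n u) =
      fun l' => inc K W n (Function.update w l u l') := by
  funext l'
  by_cases hl : l' = l
  · subst hl
    rw [Function.update_self, Function.update_self]
  · rw [Function.update_of_ne hl, Function.update_of_ne hl]

/-- The rational components of a form killed by a rational operator are killed by this operator. -/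
theorem ann_restr {F : (Fin n → K ⊗[ℚ] W) [⋀^Fin r]→ₗ[K] K} {x : Module.End ℚ W}
    (hx : Ann (x.baseChange K) F) (mu : K →ₗ[ℚ] ℚ) :
    Ann x (mu.compAlternatingMap (restr F hM)) := by
  intro w
  have h1 := hx (fun l => inc K W n (w l))
  have h2 : ∀ l, F (Function.update (fun l => inc K W n (w l)) l
      fun j => (x.baseChange K) (inc K W n (w l) j)) =
      restr F hM (Function.update w l fun j => x (w l j)) := by
    intro l
    have h3 : (fun j => (x.baseChange K) (inc K W n (w l) j)) = inc K W n (fun j => x (w l j)) := by
      funext j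
      rw [inc_apply, inc_apply, LinearMap.baseChange_tmul]
    rw [h3, update_inc]
    rfl
  rw [Finset.sum_congr rfl fun l _ => h2 l] at h1
  have h4 := congrArg mu h1
  rw [map_sum, map_zero] at h4
  exact h4

/-- A rational operator that kills a rational form kills its extension of scalars. -/
theorem ann_of_rat {x : Module.End ℚ W} {f : (Fin n → W) [⋀^Fin r]→ₗ[ℚ] ℚ} (hx : Ann x f)
    {f' : (Fin n → K ⊗[ℚ] W) [⋀^Fin r]→ₗ[K] K} (hff : Compares f f') :
    Ann (x.baseChange K) f' := by
  classical
  let b0 := Module.finBasis ℚ W
  have hlin : Matrix.toLin b0 b0 (LinearMap.toMatrix b0 b0 x) = x := Matrix.toLin_toMatrix _ _ _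
  have h0 : act (bd n (LinearMap.toMatrix b0 b0 x)) (coef b0 f) = 0 := by
    funext I
    have h1 := hx (fun l => bas b0 n (I l))
    unfold act
    rw [Pi.zero_apply, ← h1]
    refine Finset.sum_congr rfl fun l _ => ?_
    have h2 := MTA.toLin_bas (n := n) b0 (LinearMap.toMatrix b0 b0 x) (I l)
    rw [hlin] at h2
    rw [h2, AlternatingMap.map_update_sum]
    refine Finset.sum_congr rfl fun p _ => ?_
    rw [AlternatingMap.map_update_smul, smul_eq_mul]
    congr 1
    unfold coef
    change f (fun l' => bas b0 n (Function.update I l p l')) = _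
    congr 1
    funext l'
    by_cases hl : l' = l
    · subst hl
      rw [Function.update_self, Function.update_self]
    · rw [Function.update_of_ne hl, Function.update_of_ne hl]
  have h1 := MTA.annihilates_of_act b0 (LinearMap.toMatrix b0 b0 x) hff h0
  rw [hlin] at h1
  exact h1

theorem ann_sum_form {V : Type} [AddCommGroup V] [Module K V] {q : ℕ} {z : Module.End K V}
    (y : Fin q → K) (G : Fin q → (Fin n → V) [⋀^Fin r]→ₗ[K] K) (h : ∀ j, Ann z (G j)) :
    Ann z (∑ j, y j • G j) := by
  intro v
  have h1 : ∀ u : Fin r → Fin n → V, (∑ j, y j • G j) u = ∑ j, y j * G j u := by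
    intro u
    have h3 : ∀ (s : Finset (Fin q)), (∑ j ∈ s, y j • G j) u = ∑ j ∈ s, y j * G j u := by
      intro s
      classical
      induction s using Finset.induction_on with
      | empty => rfl
      | insert j s hj ih =>
        rw [Finset.sum_insert hj, Finset.sum_insert hj, AlternatingMap.add_apply, ih,
          AlternatingMap.smul_apply, smul_eq_mul]
    exact h3 _
  rw [Finset.sum_congr rfl fun l _ => h1 _, Finset.sum_comm]
  refine Finset.sum_eq_zero fun j _ => ?_
  rw [← Finset.mul_sum, h j v, mul_zero]

/-- The operators killing a form are a subspace. -/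
def annS {V : Type} [AddCommGroup V] [Module K V] (G : (Fin n → V) [⋀^Fin r]→ₗ[K] K) :
    Submodule K (Module.End K V) where
  carrier := {z | Ann z G}
  zero_mem' := by
    intro v
    refine Finset.sum_eq_zero fun l _ => ?_
    refine G.toMultilinearMap.map_coord_zero l ?_
    rw [Function.update_self]
    rfl
  add_mem' := by
    intro a b ha hb v
    have h10 : ∀ l, G (Function.update v l fun j => (a + b) (v l j)) =
        G (Function.update v l fun j => a (v l j)) +
          G (Function.update v l fun j => b (v l j)) := by
      intro l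
      have : (fun j => (a + b) (v l j)) = (fun j => a (v l j)) + fun j => b (v l j) := rfl
      rw [this, AlternatingMap.map_update_add]
    rw [Finset.sum_congr rfl (fun l _ => h10 l), Finset.sum_add_distrib, ha v, hb v, add_zero]
  smul_mem' := by
    intro c a ha v
    have h10 : ∀ l, G (Function.update v l fun j => (c • a) (v l j)) =
        c * G (Function.update v l fun j => a (v l j)) := by
      intro l
      have : (fun j => (c • a) (v l j)) = c • (fun j => a (v l j)) := rfl
      rw [this, AlternatingMap.map_update_smul, smul_eq_mul]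
    rw [Finset.sum_congr rfl (fun l _ => h10 l), ← Finset.mul_sum, ha v, mul_zero]

theorem mem_annS {V : Type} [AddCommGroup V] [Module K V] {G : (Fin n → V) [⋀^Fin r]→ₗ[K] K}
    {z : Module.End K V} : z ∈ annS G ↔ Ann z G := Iff.rfl

/-- The rational components of an operator that kills the extension of a rational form kill the
form. -/
theorem oc_ann {β : Type} [DecidableEq β] (b : Basis β ℚ K) {z : Module.End K (K ⊗[ℚ] W)}
    {f : (Fin n → W) [⋀^Fin r]→ₗ[ℚ] ℚ} {f' : (Fin n → K ⊗[ℚ] W) [⋀^Fin r]→ₗ[K] K}
    (hff : Compares f f') (hz : Ann z f') (i : β) : Ann (oc b z i) f := by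
  classical
  obtain ⟨S, hS, hsum⟩ := exists_oc b z
  intro w
  by_cases hi : i ∉ S
  · refine Finset.sum_eq_zero fun l _ => ?_
    rw [hS i hi]
    refine f.toMultilinearMap.map_coord_zero l ?_
    rw [Function.update_self]
    rfl
  push Not at hi
  have h1 := hz (fun l => inc K W n (w l))
  have h2 : ∀ l, f' (Function.update (fun l => inc K W n (w l)) l fun j => z (inc K W n (w l) j)) =
      ∑ i ∈ S, b i * ((f (Function.update w l fun j => oc b z i (w l j)) : ℚ) : K) := by
    intro l
    have h3 : (fun j => z (inc K W n (w l) j)) =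
        ∑ i ∈ S, b i • inc K W n (fun j => oc b z i (w l j)) := by
      funext j
      rw [Finset.sum_apply]
      conv_lhs => rw [hsum]
      rw [LinearMap.sum_apply]
      refine Finset.sum_congr rfl fun i _ => ?_
      rw [LinearMap.smul_apply, Pi.smul_apply, inc_apply, inc_apply, LinearMap.baseChange_tmul]
    rw [h3, AlternatingMap.map_update_sum]
    refine Finset.sum_congr rfl fun i _ => ?_
    rw [AlternatingMap.map_update_smul, smul_eq_mul, update_inc]
    congr 1
    exact hff _
  rw [Finset.sum_congr rfl fun l _ => h2 l, Finset.sum_comm] at h1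
  have h4 : ∑ i ∈ S, (∑ l, f (Function.update w l fun j => oc b z i (w l j))) • b i = 0 := by
    rw [← h1]
    refine Finset.sum_congr rfl fun i _ => ?_
    rw [← Finset.mul_sum, hM, smul_eq_mul, mul_comm, Rat.cast_sum]
  exact linearIndependent_iff'.1 b.linearIndependent S _ h4 i hi

end Pool.Agent.E8helper53.QF
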