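import Mathlib
import Pool.Agent.E8helper53.QF.Double
import Pool.Agent.E8helper53.QF.Rat

/-!
# Common forms of the spaces of Tate classes of codimension two and of all Tate classes
-/

set_option autoImplicit false
set_option linter.unusedSectionVars false

namespace Pool.Agent.E8helper53.QF

open Module TensorProduct Pool.Agent.H204R3.SP Pool.Agent.E8helper1.NU Pool.Agent.E8helper1.CT
open Pool.Agent.E8helper1
open Pool.Agent.Y126.Notions (PotentiallySemisimple)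

/-- The `ℓ`-adic realization of an abelian variety `A` over a number field with rational homology
`W = H_1(A, ℚ)`: the action of the Galois group on the rational Tate module `ℚ_ℓ ⊗ W`, the
cyclotomic character and a Weil pairing. -/
structure Realization (ℓ : ℕ) [Fact ℓ.Prime] (W Γ : Type) [AddCommGroup W] [Module ℚ W]
    [Group Γ] where
  /-- the action of the Galois group on the rational Tate module -/
  ρ : Representation ℚ_[ℓ] Γ (ℚ_[ℓ] ⊗[ℚ] W)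
  /-- the cyclotomic character -/
  χ : Γ →* ℚ_[ℓ]
  /-- the Weil pairing -/
  ω : (ℚ_[ℓ] ⊗[ℚ] W) →ₗ[ℚ_[ℓ]] (ℚ_[ℓ] ⊗[ℚ] W) →ₗ[ℚ_[ℓ]] ℚ_[ℓ]
  nondegenerate : ∀ u, (∀ v, ω u v = 0) → u = 0
  equivariant : ∀ g u v, ω (ρ g u) (ρ g v) = χ g * ω u v
  /-- the Tate module is a lattice stable under the Galois group -/
  lattice : HasLattice ℓ ρ
  /-- the theorem of Faltings -/
  semisimple : PotentiallySemisimple ρ

section defs

variable {W Γ : Type} [AddCommGroup W] [Module ℚ W] [Group Γ]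
  (D : ∀ (ℓ : ℕ) [Fact ℓ.Prime], Realization ℓ W Γ) (ℓ₀ : ℕ)

/-- The rational class `f` on `A ^ n` is a Tate class of codimension `m` for all primes `ℓ ≥ ℓ₀`. -/
def IsCommon {n : ℕ} (m : ℕ) (f : (Fin n → W) [⋀^Fin (2 * m)]→ₗ[ℚ] ℚ) : Prop :=
  ∀ (ℓ : ℕ) [Fact ℓ.Prime], ℓ₀ ≤ ℓ → ∀ f' : (Fin n → ℚ_[ℓ] ⊗[ℚ] W) [⋀^Fin (2 * m)]→ₗ[ℚ_[ℓ]] ℚ_[ℓ],
    Compares f f' → TateOn (D ℓ).ρ (D ℓ).χ m f'

/-- The spaces of Tate classes of codimension `m` on `A ^ n` have a common `ℚ`-form: a rational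
subspace `T` of the cohomology of `A ^ n`, whose extension of scalars to `ℚ_ℓ` is the space of the
`ℓ`-adic Tate classes, for all primes `ℓ ≥ ℓ₀`. -/
def HaveCommonForm (n m : ℕ) : Prop :=
  ∃ T : Submodule ℚ ((Fin n → W) [⋀^Fin (2 * m)]→ₗ[ℚ] ℚ), ∀ (ℓ : ℕ) [Fact ℓ.Prime], ℓ₀ ≤ ℓ →
    ∀ F : (Fin n → ℚ_[ℓ] ⊗[ℚ] W) [⋀^Fin (2 * m)]→ₗ[ℚ_[ℓ]] ℚ_[ℓ],
      TateOn (D ℓ).ρ (D ℓ).χ m F ↔ F ∈ Submodule.span ℚ_[ℓ] {f' | ∃ f ∈ T, Compares f f'}

/-- The Lie algebra of the (Hodge part of the) `ℓ`-adic monodromy group: the endomorphisms of the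
rational Tate module that annihilate all Tate classes on all powers of `A`. -/
def InLie {ℓ : ℕ} [Fact ℓ.Prime] (R : Realization ℓ W Γ)
    (z : Module.End ℚ_[ℓ] (ℚ_[ℓ] ⊗[ℚ] W)) : Prop :=
  ∀ (n m : ℕ) (F : (Fin n → ℚ_[ℓ] ⊗[ℚ] W) [⋀^Fin (2 * m)]→ₗ[ℚ_[ℓ]] ℚ_[ℓ]),
    TateOn R.ρ R.χ m F → Ann z F

/-- The Lie algebras of the `ℓ`-adic monodromy groups have a common `ℚ`-form. -/
def LieHasCommonForm : Prop :=
  ∃ 𝔤 : Submodule ℚ (Module.End ℚ W), ∀ (ℓ : ℕ) [Fact ℓ.Prime], ℓ₀ ≤ ℓ →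
    ∀ z : Module.End ℚ_[ℓ] (ℚ_[ℓ] ⊗[ℚ] W), InLie (D ℓ) z ↔
      z ∈ Submodule.span ℚ_[ℓ] {x' | ∃ x ∈ 𝔤, x' = x.baseChange ℚ_[ℓ]}

/-- The theorem on centres: an element of the centre of the algebra of endomorphisms of `A` over
`ℚ_ℓ` that annihilates the rational classes which are Tate classes for all primes `≥ ℓ₀` annihilates
all `ℓ`-adic Tate classes. -/
def CentreIsCommon (ℓ : ℕ) [Fact ℓ.Prime] : Prop :=
  ∀ X, IsPotentialEnd (D ℓ).ρ X → (∀ Y, IsPotentialEnd (D ℓ).ρ Y → X * Y = Y * X) →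
    (∀ (n m : ℕ) (f : (Fin n → W) [⋀^Fin (2 * m)]→ₗ[ℚ] ℚ)
      (f' : (Fin n → ℚ_[ℓ] ⊗[ℚ] W) [⋀^Fin (2 * m)]→ₗ[ℚ_[ℓ]] ℚ_[ℓ]), IsCommon D ℓ₀ m f →
      Compares f f' → Ann X f') →
    InLie (D ℓ) X

end defs

section main

variable {W Γ : Type} [AddCommGroup W] [Module ℚ W] [FiniteDimensional ℚ W] [Group Γ]
  {D : ∀ (ℓ : ℕ) [Fact ℓ.Prime], Realization ℓ W Γ} {ℓ₀ : ℕ}

/-- An ordering of the slots. -/
def eq2 (m : ℕ) : Fin m × Fin 2 ≃ Fin (2 * m) := (Equiv.prodComm _ _).trans finProdFinEquiv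

theorem inLie_iff {ℓ : ℕ} [Fact ℓ.Prime] (R : Realization ℓ W Γ)
    (z : Module.End ℚ_[ℓ] (ℚ_[ℓ] ⊗[ℚ] W)) : InLie R z ↔ z ∈ lieT R.ρ R.χ := by
  constructor
  · intro h m φ hφ
    exact kills_of_ann (eq2 m) (fun F hF => h (2 * m) m F hF) hφ
  · intro h n m F hF
    exact ann_of_lieT h (eq2 m) hF

theorem ann_of_span {ℓ : ℕ} [Fact ℓ.Prime] {n m : ℕ} {z : Module.End ℚ_[ℓ] (ℚ_[ℓ] ⊗[ℚ] W)}
    {S : Set ((Fin n → ℚ_[ℓ] ⊗[ℚ] W) [⋀^Fin (2 * m)]→ₗ[ℚ_[ℓ]] ℚ_[ℓ])} (hS : ∀ f ∈ S, Ann z f)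
    {F : (Fin n → ℚ_[ℓ] ⊗[ℚ] W) [⋀^Fin (2 * m)]→ₗ[ℚ_[ℓ]] ℚ_[ℓ]}
    (hF : F ∈ Submodule.span ℚ_[ℓ] S) : Ann z F := by
  induction hF using Submodule.span_induction with
  | mem g hg => exact hS g hg
  | zero =>
    intro v
    exact Finset.sum_eq_zero fun _ _ => rfl
  | add a b _ _ ha hb' =>
    intro v
    have h : ∀ l, (a + b) (Function.update v l fun j => z (v l j)) = a _ + b _ := fun l => rfl
    rw [Finset.sum_congr rfl (fun l _ => h l), Finset.sum_add_distrib, ha v, hb' v, add_zero]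
  | smul c a _ ha =>
    intro v
    have h : ∀ l, (c • a) (Function.update v l fun j => z (v l j)) = c * a _ := fun l => rfl
    rw [Finset.sum_congr rfl (fun l _ => h l), ← Finset.mul_sum, ha v, mul_zero]

theorem tateOn_iff {ℓ : ℕ} [Fact ℓ.Prime] (R : Realization ℓ W Γ) {n m : ℕ}
    (F : (Fin n → ℚ_[ℓ] ⊗[ℚ] W) [⋀^Fin (2 * m)]→ₗ[ℚ_[ℓ]] ℚ_[ℓ]) :
    TateOn R.ρ R.χ m F ↔ ∀ z, InLie R z → Ann z F := by
  constructor
  · intro hF z hz
    exact hz n m F hF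
  · intro h
    refine tateOn_of_ann R.lattice R.nondegenerate R.equivariant (eq2 m) fun z hz => ?_
    exact h z ((inLie_iff R z).2 hz)

/-- **From codimension two to the Lie algebra.** -/
theorem lie_of_two
    (hC : ∀ (ℓ : ℕ) [Fact ℓ.Prime], ℓ₀ ≤ ℓ → NoTypeFour (D ℓ).ρ (D ℓ).ω ∨ CentreIsCommon D ℓ₀ ℓ)
    (h : HaveCommonForm D ℓ₀ 4 2) : LieHasCommonForm D ℓ₀ := by
  classical
  obtain ⟨T, hT⟩ := h
  let 𝔤 : Submodule ℚ (Module.End ℚ W) :=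
    { carrier := {x | ∀ (n m : ℕ) (f : (Fin n → W) [⋀^Fin (2 * m)]→ₗ[ℚ] ℚ), IsCommon D ℓ₀ m f →
        Ann x f}
      zero_mem' := fun n m f _ => (annS f).zero_mem
      add_mem' := fun {a b} ha hb n m f hf => (annS f).add_mem (ha n m f hf) (hb n m f hf)
      smul_mem' := fun c a ha n m f hf => (annS f).smul_mem c (ha n m f hf) }
  have hTc : ∀ f ∈ T, IsCommon D ℓ₀ 2 f := fun f hf ℓ _ hℓ f' hff =>
    (hT ℓ hℓ f').2 (Submodule.subset_span ⟨f, hf, hff⟩)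
  refine ⟨𝔤, fun ℓ _ hℓ z => ⟨fun hz => ?_, fun hz => ?_⟩⟩
  · -- the components
    let b := Basis.ofVectorSpace ℚ ℚ_[ℓ]
    obtain ⟨S, -, hsum⟩ := exists_oc b z
    rw [hsum]
    refine Submodule.sum_mem _ fun i _ => Submodule.smul_mem _ _ (Submodule.subset_span
      ⟨oc b z i, fun n m f hf => ?_, rfl⟩)
    exact oc_ann b (compares_extend (K := ℚ_[ℓ]) f)
      (hz n m _ (hf ℓ hℓ _ (compares_extend (K := ℚ_[ℓ]) f))) i
  · rw [inLie_iff]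
    refine (Submodule.span_le (p := lieT (D ℓ).ρ (D ℓ).χ)).2 ?_ hz
    rintro _ ⟨x, hx, rfl⟩
    have hxf : ∀ (n m : ℕ) (f : (Fin n → W) [⋀^Fin (2 * m)]→ₗ[ℚ] ℚ)
        (f' : (Fin n → ℚ_[ℓ] ⊗[ℚ] W) [⋀^Fin (2 * m)]→ₗ[ℚ_[ℓ]] ℚ_[ℓ]), IsCommon D ℓ₀ m f →
        Compares f f' → Ann (x.baseChange ℚ_[ℓ]) f' := fun n m f f' hf hff =>
      ann_of_rat (hx n m f hf) hff
    have h1 : ∀ φ, IsTate (D ℓ).ρ (D ℓ).χ 2 φ → Kills (x.baseChange ℚ_[ℓ]) φ := by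
      intro φ hφ
      refine kills_of_ann (eq2 2) (fun F hF => ?_) hφ
      refine ann_of_span ?_ ((hT ℓ hℓ F).1 hF)
      rintro f' ⟨f, hf, hff⟩
      exact hxf 4 2 f f' (hTc f hf) hff
    obtain ⟨y, hy, h2, h3, h4⟩ := core' (D ℓ).nondegenerate (D ℓ).equivariant
      (hasProj_of (D ℓ).semisimple) (D ℓ).lattice h1
    have h5 : x.baseChange ℚ_[ℓ] - y ∈ lieT (D ℓ).ρ (D ℓ).χ := by
      rcases hC ℓ hℓ with h6 | h6
      · rw [h6 _ h2 h3 h4]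
        exact Submodule.zero_mem _
      · rw [← inLie_iff]
        refine h6 _ h2 h3 fun n m f f' hf hff => ?_
        exact (annS f').sub_mem (hxf n m f f' hf hff)
          ((inLie_iff (D ℓ) y).2 hy n m f' (hf ℓ hℓ f' hff))
    have h6 := Submodule.add_mem _ h5 hy
    rwa [sub_add_cancel] at h6

/-- **From the Lie algebra to all Tate classes.** -/
theorem all_of_lie (h : LieHasCommonForm D ℓ₀) (n m : ℕ) : HaveCommonForm D ℓ₀ n m := by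
  classical
  obtain ⟨𝔤, hg⟩ := h
  let T : Submodule ℚ ((Fin n → W) [⋀^Fin (2 * m)]→ₗ[ℚ] ℚ) :=
    { carrier := {f | ∀ x ∈ 𝔤, Ann x f}
      zero_mem' := fun x _ v => Finset.sum_eq_zero fun _ _ => rfl
      add_mem' := fun {a b} ha hb x hx v => by
        have h : ∀ l, (a + b) (Function.update v l fun j => x (v l j)) = a _ + b _ := fun l => rfl
        rw [Finset.sum_congr rfl (fun l _ => h l), Finset.sum_add_distrib, ha x hx v, hb x hx v,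
          add_zero]
      smul_mem' := fun c a ha x hx v => by
        have h : ∀ l, (c • a) (Function.update v l fun j => x (v l j)) = c * a _ := fun l => rfl
        rw [Finset.sum_congr rfl (fun l _ => h l), ← Finset.mul_sum, ha x hx v, mul_zero] }
  refine ⟨T, fun ℓ _ hℓ F => ⟨fun hF => ?_, fun hF => ?_⟩⟩
  · obtain ⟨q, mu, y, hF'⟩ := exists_decomp F
    rw [hF']
    refine Submodule.sum_mem _ fun j _ => Submodule.smul_mem _ _ (Submodule.subset_span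
      ⟨_, fun x hx => ?_, compares_extend _⟩)
    refine ann_restr ?_ (mu j)
    exact (hg ℓ hℓ _).2 (Submodule.subset_span ⟨x, hx, rfl⟩) n m F hF
  · rw [tateOn_iff]
    intro z hz
    refine ann_of_span ?_ hF
    rintro f' ⟨f, hf, hff⟩
    rw [← mem_annS]
    refine (Submodule.span_le (p := annS f')).2 ?_ ((hg ℓ hℓ z).1 hz)
    rintro _ ⟨x, hx, rfl⟩
    exact ann_of_rat (hf x hx) hff

end main

end Pool.Agent.E8helper53.QF
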